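import Mathlib
import Pool.Agent.Helper23.IM.Path
import Pool.Agent.Helper23.IM.Defs

/-!
# Stacking lemma for a cyclically reduced, non periodic cyclic word
-/

namespace IM

open FreeGroup

section ST

variable {A : Type*} {L : ℕ} [NeZero L] (t : ZMod L → A × Bool)

/-- Compatible height functions. -/
def StkCompat {α : Type*} [LinearOrder α] (h : ZMod L → α) : Prop :=
  ∀ i j, (t i).1 = (t j).1 → (h (srcI t i) < h (srcI t j) ↔ h (tgtI t i) < h (tgtI t j))

variable {t}

omit [NeZero L] in
theorem StkCompat.eq_iff {α : Type*} [LinearOrder α] {h : ZMod L → α} (hc : StkCompat t h)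
    {i j : ZMod L} (hij : (t i).1 = (t j).1) :
    h (srcI t i) = h (srcI t j) ↔ h (tgtI t i) = h (tgtI t j) := by
  have h1 := hc i j hij
  have h2 := hc j i hij.symm
  constructor
  · intro he
    apply le_antisymm
    · rw [← not_lt, ← h2, he]; exact lt_irrefl _
    · rw [← not_lt, ← h1, he]; exact lt_irrefl _
  · intro he
    apply le_antisymm
    · rw [← not_lt, h2, he]; exact lt_irrefl _
    · rw [← not_lt, h1, he]; exact lt_irrefl _

/-- A primitive of a function with zero sum on the cycle. -/
theorem exists_primitive_zmod (g : ZMod L → ℚ) (hg : ∑ i, g i = 0) :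
    ∃ φ : ZMod L → ℚ, ∀ i, φ (i + 1) - φ i = g i := by
  refine ⟨fun i => ∑ j ∈ Finset.range i.val, g (j : ZMod L), fun i => ?_⟩
  have hL : 0 < L := Nat.pos_of_ne_zero (NeZero.ne L)
  have hi : i.val < L := ZMod.val_lt i
  have hcast : ((i.val : ℕ) : ZMod L) = i := ZMod.natCast_zmod_val i
  by_cases h : i.val + 1 < L
  · have h1 : (i + 1).val = i.val + 1 := by
      have h2 : (((i.val + 1 : ℕ)) : ZMod L) = i + 1 := by push_cast; rw [hcast]
      rw [← h2, ZMod.val_natCast, Nat.mod_eq_of_lt h]
    simp only [h1, Finset.sum_range_succ, hcast]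
    ring
  · have h3 : i.val + 1 = L := by omega
    have h1 : (i + 1 : ZMod L) = 0 := by
      have h2 : (((i.val + 1 : ℕ)) : ZMod L) = i + 1 := by push_cast; rw [hcast]
      rw [← h2, h3, ZMod.natCast_self]
    have h4 : ∑ j ∈ Finset.range L, g (j : ZMod L) = ∑ i, g i := by
      refine Finset.sum_nbij' (fun j => (j : ZMod L)) (fun i => i.val) ?_ ?_ ?_ ?_ ?_
      · intro a _; exact Finset.mem_univ _
      · intro a _; exact Finset.mem_range.2 (ZMod.val_lt a)
      · intro a ha
        rw [ZMod.val_natCast, Nat.mod_eq_of_lt (Finset.mem_range.1 ha)]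
      · intro a _; exact ZMod.natCast_zmod_val a
      · intro a _; rfl
    have h5 := Finset.sum_range_succ (fun j : ℕ => g (j : ZMod L)) i.val
    rw [h3, h4, hg, hcast] at h5
    simp only [h1, ZMod.val_zero, Finset.range_zero, Finset.sum_empty]
    linarith

/-- The edge classes. -/
def StkEC {α : Type*} (t : ZMod L → A × Bool) (h : ZMod L → α) : Set (A × α) :=
  Set.range fun i => ((t i).1, h (srcI t i))

theorem stk_refine_a {α : Type} [LinearOrder α] {h : ZMod L → α} (hc : StkCompat t h)
    (hlt : (Set.range h).ncard < (StkEC t h).ncard) :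
    ∃ (β : Type) (_ : LinearOrder β) (h' : ZMod L → β), StkCompat t h' ∧
      (Set.range h).ncard < (Set.range h').ncard := by
  classical
  have hfE : Finite (StkEC t h) := (Set.finite_range _).to_subtype
  have : Fintype (StkEC t h) := Fintype.ofFinite _
  have : Fintype (Set.range h) := Fintype.ofFinite _
  let e : ZMod L → StkEC t h := fun i => ⟨((t i).1, h (srcI t i)), i, rfl⟩
  let v : ZMod L → Set.range h := fun i => ⟨h i, i, rfl⟩
  have he : ∀ x : StkEC t h, ∃ i, e i = x := by
    rintro ⟨x, i, rfl⟩
    exact ⟨i, rfl⟩
  choose r hr using he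
  have hre : ∀ i, (t (r (e i))).1 = (t i).1 ∧ h (srcI t (r (e i))) = h (srcI t i) := by
    intro i
    have h1 : ((t (r (e i))).1, h (srcI t (r (e i)))) = ((t i).1, h (srcI t i)) :=
      congrArg Subtype.val (hr (e i))
    exact Prod.ext_iff.1 h1
  have hsrc : ∀ i, v (srcI t (r (e i))) = v (srcI t i) := fun i => Subtype.ext (hre i).2
  have htgt : ∀ i, v (tgtI t (r (e i))) = v (tgtI t i) := fun i =>
    Subtype.ext ((hc.eq_iff (hre i).1).1 (hre i).2)
  let δ : (Set.range h → ℚ) →ₗ[ℚ] (StkEC t h → ℚ) :=
    { toFun := fun f x => f (v (tgtI t (r x))) - f (v (srcI t (r x)))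
      map_add' := fun f g => by ext x; simp only [Pi.add_apply]; ring
      map_smul' := fun a f => by ext x; simp only [Pi.smul_apply, smul_eq_mul, RingHom.id_apply]; ring }
  let ε : ZMod L → ℚ := fun i => if (t i).2 then 1 else -1
  let σ : (StkEC t h → ℚ) →ₗ[ℚ] ℚ :=
    { toFun := fun c => ∑ i, ε i * c (e i)
      map_add' := fun f g => by simp only [Pi.add_apply, mul_add, Finset.sum_add_distrib]
      map_smul' := fun a f => by
        simp only [Pi.smul_apply, smul_eq_mul, RingHom.id_apply, Finset.mul_sum]
        refine Finset.sum_congr rfl fun i _ => by ring }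
  have h1 : Module.finrank ℚ (LinearMap.range σ) + Module.finrank ℚ (LinearMap.ker σ) =
      Fintype.card (StkEC t h) := by
    rw [LinearMap.finrank_range_add_finrank_ker, Module.finrank_fintype_fun_eq_card]
  have h2 : Module.finrank ℚ (LinearMap.range σ) ≤ 1 := by
    refine (Submodule.finrank_le _).trans ?_
    rw [Module.finrank_self]
  have h3 : Module.finrank ℚ (LinearMap.range δ) + Module.finrank ℚ (LinearMap.ker δ) =
      Fintype.card (Set.range h) := by
    rw [LinearMap.finrank_range_add_finrank_ker, Module.finrank_fintype_fun_eq_card]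
  have h4 : 1 ≤ Module.finrank ℚ (LinearMap.ker δ) := by
    rw [Nat.one_le_iff_ne_zero, Ne, Submodule.finrank_eq_zero]
    intro hker
    have hm : (fun _ => 1 : Set.range h → ℚ) ∈ LinearMap.ker δ := by
      rw [LinearMap.mem_ker]
      ext x
      simp [δ]
    rw [hker, Submodule.mem_bot] at hm
    have := congrFun hm (v 0)
    simp at this
  have h5 : ¬ LinearMap.ker σ ≤ LinearMap.range δ := by
    intro hle
    have := Submodule.finrank_mono hle
    rw [← Nat.card_coe_set_eq, ← Nat.card_coe_set_eq, Nat.card_eq_fintype_card,
      Nat.card_eq_fintype_card] at hlt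
    omega
  obtain ⟨c, hcσ, hcδ⟩ := SetLike.not_le_iff_exists.1 h5
  obtain ⟨φ, hφ⟩ := exists_primitive_zmod (fun i => ε i * c (e i)) hcσ
  have hφ' : ∀ i, φ (tgtI t i) - φ (srcI t i) = c (e i) := by
    intro i
    have := hφ i
    by_cases hb : (t i).2 = true
    · simp only [ε, hb, if_true, one_mul] at this
      simp only [tgtI, srcI, hb, if_true]
      exact this
    · simp only [Bool.not_eq_true] at hb
      simp only [ε, hb, Bool.false_eq_true, if_false] at this
      simp only [tgtI, srcI, hb, Bool.false_eq_true, if_false]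
      linarith
  refine ⟨α ×ₗ ℚ, inferInstance, fun i => toLex (h i, φ i), ?_, ?_⟩
  · intro i j hij
    simp only [Prod.Lex.toLex_lt_toLex]
    have h6 := hc i j hij
    have h7 := hc.eq_iff hij
    constructor
    · rintro (h8 | ⟨h8, h9⟩)
      · exact Or.inl (h6.1 h8)
      · refine Or.inr ⟨h7.1 h8, ?_⟩
        have h10 : e i = e j := Subtype.ext (Prod.ext hij h8)
        have h11 := hφ' i
        have h12 := hφ' j
        rw [h10] at h11
        linarith
    · rintro (h8 | ⟨h8, h9⟩)
      · exact Or.inl (h6.2 h8)
      · refine Or.inr ⟨h7.2 h8, ?_⟩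
        have h10 : e i = e j := Subtype.ext (Prod.ext hij (h7.2 h8))
        have h11 := hφ' i
        have h12 := hφ' j
        rw [h10] at h11
        linarith
  · by_contra hnot
    apply hcδ
    have hfin : (Set.range fun i => toLex (h i, φ i)).Finite := Set.finite_range _
    have himg : (fun p : α ×ₗ ℚ => (ofLex p).1) '' (Set.range fun i => toLex (h i, φ i)) =
        Set.range h := by
      rw [← Set.range_comp]
      rfl
    have hcard : ((fun p : α ×ₗ ℚ => (ofLex p).1) ''
        (Set.range fun i => toLex (h i, φ i))).ncard = (Set.range fun i => toLex (h i, φ i)).ncard := by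
      apply le_antisymm (Set.ncard_image_le hfin)
      rw [himg]
      omega
    have hinj := (Set.ncard_image_iff hfin).1 hcard
    have hconst : ∀ i j, h i = h j → φ i = φ j := by
      intro i j hij
      have := hinj ⟨i, rfl⟩ ⟨j, rfl⟩ hij
      have h13 : (h i, φ i) = (h j, φ j) := toLex.injective this
      exact (Prod.ext_iff.1 h13).2
    have hv : ∀ x : Set.range h, ∃ i, v i = x := by
      rintro ⟨x, i, rfl⟩
      exact ⟨i, rfl⟩
    choose q hq using hv
    have hqv : ∀ i, φ (q (v i)) = φ i := fun i => hconst _ _ (congrArg Subtype.val (hq (v i)))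
    refine ⟨fun x => φ (q x), ?_⟩
    ext x
    change φ (q (v (tgtI t (r x)))) - φ (q (v (srcI t (r x)))) = c x
    rw [hqv, hqv, hφ', hr]

theorem stk_refine_b {α : Type} [LinearOrder α] {h : ZMod L → α} (hc : StkCompat t h)
    (hred : ∀ i, t (i + 1) ≠ flip (t i)) (hper : ∀ k : ZMod L, k ≠ 0 → ∃ i, t (i + k) ≠ t i)
    (hle : (StkEC t h).ncard ≤ (Set.range h).ncard) : Function.Injective h := by
  classical
  have hred' : ∀ i, t i ≠ flip (t (i - 1)) := by
    intro i
    have := hred (i - 1)
    rwa [sub_add_cancel] at this
  -- the key property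
  have key : ∀ v v', h v = h v' → t v' = t v ∨ t v' = flip (t (v - 1)) := by
    let D : Finset (α × (A × Bool)) :=
      (Finset.univ.image fun v : ZMod L => (h v, t v)) ∪
        (Finset.univ.image fun v : ZMod L => (h v, flip (t (v - 1))))
    let VC : Finset α := Finset.univ.image h
    let EC : Finset (A × α) := Finset.univ.image fun i => ((t i).1, h (srcI t i))
    have hVC : (Set.range h).ncard = VC.card := by
      rw [← Set.ncard_coe_finset]
      congr 1
      ext x; simp [VC]
    have hEC : (StkEC t h).ncard = EC.card := by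
      rw [← Set.ncard_coe_finset]
      congr 1
      ext x; simp [EC, StkEC]
    rw [hVC, hEC] at hle
    have hre : ∀ x ∈ EC, ∃ i, ((t i).1, h (srcI t i)) = x := by
      intro x hx
      simpa [EC] using hx
    have hDle : D.card ≤ 2 * EC.card := by
      -- D is contained in the union of two images of EC
      have : ∃ f g : A × α → α × (A × Bool), D ⊆ EC.image f ∪ EC.image g := by
        let tg : A × α → α := fun x =>
          if hx : ∃ i, ((t i).1, h (srcI t i)) = x then h (tgtI t hx.choose) else x.2
        have htg : ∀ i, tg ((t i).1, h (srcI t i)) = h (tgtI t i) := by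
          intro i
          have hx : ∃ j, ((t j).1, h (srcI t j)) = ((t i).1, h (srcI t i)) := ⟨i, rfl⟩
          have h1 : tg ((t i).1, h (srcI t i)) = h (tgtI t hx.choose) := by
            simp only [tg, dif_pos hx]
          rw [h1]
          have h2 := hx.choose_spec
          have h3 := Prod.ext_iff.1 h2
          exact (hc.eq_iff h3.1).1 h3.2
        refine ⟨fun x => (x.2, (x.1, true)), fun x => (tg x, (x.1, false)), ?_⟩
        have hmem : ∀ i, ((t i).1, h (srcI t i)) ∈ EC := fun i => by
          simp only [EC, Finset.mem_image, Finset.mem_univ, true_and]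
          exact ⟨i, rfl⟩
        intro d hd
        simp only [D, Finset.mem_union, Finset.mem_image, Finset.mem_univ, true_and] at hd
        rcases hd with ⟨v, rfl⟩ | ⟨v, rfl⟩
        · rw [Finset.mem_union]
          by_cases hb : (t v).2 = true
          · left
            refine Finset.mem_image.2 ⟨_, hmem v, ?_⟩
            simp only [srcI, hb, if_true]
            exact Prod.ext rfl (Prod.ext rfl hb.symm)
          · right
            refine Finset.mem_image.2 ⟨_, hmem v, ?_⟩
            simp only [Bool.not_eq_true] at hb
            rw [htg]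
            simp only [tgtI, hb, Bool.false_eq_true, if_false]
            exact Prod.ext rfl (Prod.ext rfl hb.symm)
        · rw [Finset.mem_union]
          by_cases hb : (t (v - 1)).2 = true
          · right
            refine Finset.mem_image.2 ⟨_, hmem (v - 1), ?_⟩
            rw [htg]
            simp only [tgtI, hb, if_true, sub_add_cancel]
            refine Prod.ext rfl (Prod.ext rfl ?_)
            simp [hb]
          · left
            refine Finset.mem_image.2 ⟨_, hmem (v - 1), ?_⟩
            simp only [Bool.not_eq_true] at hb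
            simp only [srcI, hb, Bool.false_eq_true, if_false, sub_add_cancel]
            refine Prod.ext rfl (Prod.ext rfl ?_)
            simp [hb]
      obtain ⟨f, g, hfg⟩ := this
      calc D.card ≤ (EC.image f ∪ EC.image g).card := Finset.card_le_card hfg
        _ ≤ (EC.image f).card + (EC.image g).card := Finset.card_union_le _ _
        _ ≤ EC.card + EC.card := add_le_add Finset.card_image_le Finset.card_image_le
        _ = 2 * EC.card := by ring
    have hmaps : ∀ d ∈ D, d.1 ∈ VC := by
      intro d hd
      simp only [D, Finset.mem_union, Finset.mem_image, Finset.mem_univ, true_and] at hd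
      simp only [VC, Finset.mem_image, Finset.mem_univ, true_and]
      rcases hd with ⟨v, rfl⟩ | ⟨v, rfl⟩ <;> exact ⟨v, rfl⟩
    have hsum := Finset.card_eq_sum_card_fiberwise (f := fun d : α × (A × Bool) => d.1) (s := D)
      (t := VC) hmaps
    have hpair : ∀ v, ({(h v, t v), (h v, flip (t (v - 1)))} : Finset (α × (A × Bool))) ⊆
        D.filter fun d => d.1 = h v := by
      intro v d hd
      simp only [Finset.mem_insert, Finset.mem_singleton] at hd
      rw [Finset.mem_filter]
      simp only [D, Finset.mem_union, Finset.mem_image, Finset.mem_univ, true_and]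
      rcases hd with rfl | rfl
      · exact ⟨Or.inl ⟨v, rfl⟩, rfl⟩
      · exact ⟨Or.inr ⟨v, rfl⟩, rfl⟩
    have hpc : ∀ v, ({(h v, t v), (h v, flip (t (v - 1)))} : Finset (α × (A × Bool))).card = 2 := by
      intro v
      rw [Finset.card_pair]
      intro hcontra
      exact hred' v (Prod.ext_iff.1 hcontra).2
    have hge : ∀ y ∈ VC, 2 ≤ (D.filter fun d => d.1 = y).card := by
      intro y hy
      simp only [VC, Finset.mem_image, Finset.mem_univ, true_and] at hy
      obtain ⟨v, rfl⟩ := hy
      rw [← hpc v]
      exact Finset.card_le_card (hpair v)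
    have heq : ∀ y ∈ VC, (D.filter fun d => d.1 = y).card = 2 := by
      have h1 : ∑ y ∈ VC, 2 = ∑ y ∈ VC, (D.filter fun d => d.1 = y).card := by
        apply le_antisymm
        · exact Finset.sum_le_sum hge
        · rw [← hsum, Finset.sum_const, smul_eq_mul]
          omega
      intro y hy
      exact ((Finset.sum_eq_sum_iff_of_le hge).1 h1 y hy).symm
    intro v v' hvv
    have h1 : ({(h v, t v), (h v, flip (t (v - 1)))} : Finset (α × (A × Bool))) =
        D.filter fun d => d.1 = h v := by
      apply Finset.eq_of_subset_of_card_le (hpair v)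
      rw [heq (h v) (by simp [VC]), hpc]
    have h2 : (h v', t v') ∈ D.filter fun d => d.1 = h v := by
      rw [Finset.mem_filter]
      refine ⟨?_, hvv.symm⟩
      simp only [D, Finset.mem_union, Finset.mem_image, Finset.mem_univ, true_and]
      exact Or.inl ⟨v', rfl⟩
    rw [← h1] at h2
    simp only [Finset.mem_insert, Finset.mem_singleton, Prod.mk.injEq] at h2
    rcases h2 with h2 | h2
    · exact Or.inl h2.2
    · exact Or.inr h2.2
  -- propagation along an edge
  have prop1 : ∀ v v', h v = h v' → t v' = t v → h (v + 1) = h (v' + 1) := by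
    intro v v' h1 h2
    have h3 : (t v).1 = (t v').1 := by rw [h2]
    have h4 := hc.eq_iff h3
    by_cases hb : (t v).2 = true
    · have hb' : (t v').2 = true := by rw [h2]; exact hb
      simp only [srcI, tgtI, hb, hb', if_true] at h4
      exact h4.1 h1
    · simp only [Bool.not_eq_true] at hb
      have hb' : (t v').2 = false := by rw [h2]; exact hb
      simp only [srcI, tgtI, hb, hb', Bool.false_eq_true, if_false] at h4
      exact h4.2 h1
  have prop2 : ∀ v v', h v = h v' → t v = flip (t (v' - 1)) → h (v + 1) = h (v' - 1) := by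
    intro v v' h1 h2
    have h3 : (t v).1 = (t (v' - 1)).1 := by rw [h2]; rfl
    have h4 := hc.eq_iff h3
    by_cases hb : (t (v' - 1)).2 = true
    · have hb' : (t v).2 = false := by rw [h2]; simp [hb]
      simp only [srcI, tgtI, hb, hb', if_true, Bool.false_eq_true, if_false, sub_add_cancel] at h4
      exact h4.2 h1
    · simp only [Bool.not_eq_true] at hb
      have hb' : (t v).2 = true := by rw [h2]; simp [hb]
      simp only [srcI, tgtI, hb, hb', if_true, Bool.false_eq_true, if_false, sub_add_cancel] at h4
      exact h4.1 h1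
  intro v v' hvv
  by_contra hne
  by_cases h1 : t v' = t v
  · have hall : ∀ n : ℕ, h (v + n) = h (v' + n) ∧ t (v' + n) = t (v + n) := by
      intro n
      induction n with
      | zero => simpa using ⟨hvv, h1⟩
      | succ n ih =>
        have h2 := prop1 _ _ ih.1 ih.2
        have h3 := key _ _ h2
        have h4 : v + ((n + 1 : ℕ) : ZMod L) = v + n + 1 := by push_cast; ring
        have h5 : v' + ((n + 1 : ℕ) : ZMod L) = v' + n + 1 := by push_cast; ring
        rw [h4, h5]
        refine ⟨h2, ?_⟩
        rcases h3 with h3 | h3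
        · exact h3
        · exfalso
          rw [add_sub_cancel_right, ← ih.2] at h3
          exact hred _ h3
    obtain ⟨i, hi⟩ := hper (v' - v) (sub_ne_zero.2 (Ne.symm hne))
    apply hi
    have h6 := (hall (i - v).val).2
    rw [ZMod.natCast_zmod_val] at h6
    have h7 : v' + (i - v) = i + (v' - v) := by ring
    have h8 : v + (i - v) = i := by ring
    rwa [h7, h8] at h6
  · have h2 : t v = flip (t (v' - 1)) := by
      rcases key v' v hvv.symm with h3 | h3
      · exact absurd h3.symm h1
      · exact h3
    have hall : ∀ n : ℕ, h (v + n) = h (v' - n) ∧ t (v + n) = flip (t (v' - n - 1)) := by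
      intro n
      induction n with
      | zero => simpa using ⟨hvv, h2⟩
      | succ n ih =>
        have h4 : v + ((n + 1 : ℕ) : ZMod L) = v + n + 1 := by push_cast; ring
        have h5 : v' - ((n + 1 : ℕ) : ZMod L) = v' - n - 1 := by push_cast; ring
        rw [h4, h5]
        have h6 := prop2 _ _ ih.1 ih.2
        refine ⟨h6, ?_⟩
        rcases key _ _ h6.symm with h3 | h3
        · exfalso
          apply hred (v + n)
          rw [h3, ih.2, flip_flip]
        · exact h3
    have hall' : ∀ i, t i = flip (t (v + v' - 1 - i)) := by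
      intro i
      have h6 := (hall (i - v).val).2
      rw [ZMod.natCast_zmod_val] at h6
      have h7 : v' - (i - v) - 1 = v + v' - 1 - i := by ring
      have h8 : v + (i - v) = i := by ring
      rwa [h7, h8] at h6
    rcases Nat.even_or_odd' (v + v' - 1).val with ⟨m, hm | hm⟩
    · have h9 : v + v' - 1 = (m : ZMod L) + m := by
        rw [← ZMod.natCast_zmod_val (v + v' - 1), hm]; push_cast; ring
      have h10 := hall' (m : ZMod L)
      rw [h9, add_sub_cancel_right] at h10
      exact flip_ne _ h10.symm
    · have h9 : v + v' - 1 = (m : ZMod L) + 1 + m := by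
        rw [← ZMod.natCast_zmod_val (v + v' - 1), hm]; push_cast; ring
      have h10 := hall' (m : ZMod L)
      rw [h9, add_sub_cancel_right] at h10
      apply hred (m : ZMod L)
      rw [h10, flip_flip]

theorem exists_injective_compat
    (hred : ∀ i, t (i + 1) ≠ flip (t i)) (hper : ∀ k : ZMod L, k ≠ 0 → ∃ i, t (i + k) ≠ t i)
    (n : ℕ) : ∀ (α : Type) (_ : LinearOrder α) (h : ZMod L → α), StkCompat t h →
      L ≤ (Set.range h).ncard + n →
      ∃ (β : Type) (_ : LinearOrder β) (h' : ZMod L → β), StkCompat t h' ∧ Function.Injective h' := by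
  induction n with
  | zero =>
    intro α _ h hc hn
    refine ⟨α, inferInstance, h, hc, ?_⟩
    have h1 : (Set.range h).ncard = (Set.univ : Set (ZMod L)).ncard := by
      apply le_antisymm
      · rw [← Set.image_univ]
        exact Set.ncard_image_le (Set.toFinite _)
      · rw [Set.ncard_univ, Nat.card_eq_fintype_card, ZMod.card]
        omega
    rw [← Set.image_univ] at h1
    have h2 := (Set.ncard_image_iff (Set.toFinite _)).1 h1
    exact Set.injOn_univ.1 h2
  | succ n ih =>
    intro α _ h hc hn
    by_cases hle : (StkEC t h).ncard ≤ (Set.range h).ncard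
    · exact ⟨α, inferInstance, h, hc, stk_refine_b hc hred hper hle⟩
    · obtain ⟨β, inst, h', hc', hlt⟩ := stk_refine_a hc (not_le.1 hle)
      exact ih β inst h' hc' (by omega)

theorem stacking {A : Type*} {L : ℕ} [NeZero L] (t : ZMod L → A × Bool)
    (hred : ∀ i, t (i + 1) ≠ flip (t i)) (hper : ∀ k : ZMod L, k ≠ 0 → ∃ i, t (i + k) ≠ t i) :
    ∃ h : ZMod L → ℕ, Function.Injective h ∧
      ∀ i j, (t i).1 = (t j).1 → (h (srcI t i) < h (srcI t j) ↔ h (tgtI t i) < h (tgtI t j)) := by
  classical
  obtain ⟨β, inst, h, hc, hinj⟩ := exists_injective_compat hred hper L ℕ inferInstance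
    (fun _ => 0) (fun _ _ _ => Iff.rfl) (by omega)
  let f : ZMod L → ℕ := fun i => (Finset.univ.filter fun j => h j < h i).card
  have hf : ∀ i j, f i < f j ↔ h i < h j := by
    have hmono : ∀ i j, h i < h j → f i < f j := by
      intro i j hij
      apply Finset.card_lt_card
      rw [Finset.ssubset_iff_of_subset]
      · exact ⟨i, by simpa using hij, by simp⟩
      · intro k hk
        simp only [Finset.mem_filter, Finset.mem_univ, true_and] at hk ⊢
        exact hk.trans hij
    intro i j
    refine ⟨fun h1 => ?_, hmono i j⟩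
    by_contra h2
    rcases (not_lt.1 h2).lt_or_eq with h3 | h3
    · exact absurd (hmono j i h3) (by omega)
    · rw [hinj h3] at h1
      exact lt_irrefl _ h1
  refine ⟨f, ?_, ?_⟩
  · intro i j hij
    apply hinj
    rcases lt_trichotomy (h i) (h j) with h1 | h1 | h1
    · have := (hf i j).2 h1; omega
    · exact h1
    · have := (hf j i).2 h1; omega
  · intro i j hij
    rw [hf, hf]
    exact hc i j hij

end ST

end IM
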